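import Mathlib

/-!
# AO-H8: the choice of `J` and of `Λ` (pure reals)

`N = ⌊r / 2d⌋`: `N ≥ 4`: `J = N + 1` (or `⌈r⌉ + 4` if `d` is very small); `N = 3`: `J = 4` or `5`; `N = 2`: `J = 3` or `4`;
`N = 1`: `J = 3`.
-/

set_option autoImplicit false

namespace Pool.Agent.Helper68.AO

/-- sum of `(m d - r)_+` for `m < n` -/
def ex (n : ℕ) (r d : ℝ) : ℝ := ∑ m ∈ Finset.range n, max 0 ((m : ℝ) * d - r)

lemma ex_zero (n : ℕ) {r d : ℝ} (hd : 0 ≤ d) (h : (n : ℝ) * d ≤ r + d) : ex n r d = 0 := by
  unfold ex
  refine Finset.sum_eq_zero fun m hm => ?_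
  have : (m : ℝ) + 1 ≤ n := by exact_mod_cast Finset.mem_range.1 hm
  rw [max_eq_left]
  nlinarith

lemma ex_succ (n : ℕ) (r d : ℝ) : ex (n + 1) r d = ex n r d + max 0 ((n : ℝ) * d - r) := by
  unfold ex
  rw [Finset.sum_range_succ]

/-- the choice of `J` and of `Λ = x ^ c` or `1` -/
theorem choose_J3 {r d g c e κ : ℝ} (hg : 0 ≤ g) (he : 0 ≤ e) (hc : c ≤ 1 / 16) (hg1 : g ≤ 1 / 100)
    (hκ1 : κ ≤ e) (hκ2 : κ ≤ c - 2 * g - 2 * e) (hκ3 : κ ≤ c - 5 * g) (hr : 2 - g ≤ r) (hd : 0 < d) (hd1 : d ≤ 1 / 2 + g) :
    ∃ J : ℕ, 3 ≤ J ∧ (J : ℝ) ≤ r + 5 ∧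
      ((r + 3 - 2 * d + ex (2 * J) r d + κ ≤ J * (1 + d)) ∨
      ((r + 3 - 2 * d + ex (2 * J - 1) r d + max 0 ((2 * (J : ℝ) - 1) * d - r - c) + κ ≤ J * (1 + d)) ∧
       (3 * c + r + 3 - 3 * d + ex (2 * J) r d + κ ≤ J * (1 + d)))) := by
  obtain ⟨N, hN⟩ : ∃ N : ℕ, N = ⌊r / (2 * d)⌋₊ := ⟨_, rfl⟩
  have hx0 : 0 ≤ r / (2 * d) := by
    have : 0 ≤ r := by linarith
    positivity
  have hN1 : (N : ℝ) * (2 * d) ≤ r := by
    have := Nat.floor_le hx0
    rw [← hN] at this
    rwa [le_div_iff₀ (by linarith)] at this
  have hN2 : r < ((N : ℝ) + 1) * (2 * d) := by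
    have := Nat.lt_floor_add_one (r / (2 * d))
    rw [← hN] at this
    rwa [div_lt_iff₀ (by linarith)] at this
  have hκ4 : κ ≤ 1 / 16 := by linarith
  obtain ⟨m, hm⟩ : ∃ m : ℕ, m = ⌈r⌉₊ := ⟨_, rfl⟩
  have hr0 : 0 ≤ r := by linarith
  have hm1 : r ≤ m := by rw [hm]; exact Nat.le_ceil r
  have hm2 : (m : ℝ) < r + 1 := by rw [hm]; exact Nat.ceil_lt_add_one hr0
  by_cases hC : 2 * ((m : ℝ) + 4) * d ≤ r + d
  · refine ⟨m + 4, by omega, by push_cast; linarith, Or.inl ?_⟩
    rw [ex_zero _ hd.le (by push_cast; linarith)]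
    push_cast
    nlinarith
  · push Not at hC
    by_cases h4 : 4 ≤ N
    · have h4' : (4 : ℝ) ≤ N := by exact_mod_cast h4
      have hNm : N < m + 4 := by
        by_contra hcon
        push Not at hcon
        have h1 : ((m : ℝ) + 4) ≤ N := by exact_mod_cast hcon
        have h2 : ((m : ℝ) + 4) * (2 * d) ≤ N * (2 * d) := mul_le_mul_of_nonneg_right h1 (by linarith)
        nlinarith
      have hNm' : (N : ℝ) + 1 ≤ m + 4 := by exact_mod_cast hNm
      refine ⟨N + 1, by omega, by push_cast; linarith, Or.inl ?_⟩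
      rw [show 2 * (N + 1) = 2 * N + 1 + 1 by ring, ex_succ, ex_zero _ hd.le (by push_cast; linarith)]
      push_cast
      have h5 : (N : ℝ) * d ≤ N * (1 / 2 + g) := by gcongr
      have h6 : (N : ℝ) * (1 - d) ≥ 4 * (1 - d) := by nlinarith
      rcases le_total 0 ((2 * (N : ℝ) + 1) * d - r) with h1 | h1
      · rw [max_eq_right h1]
        nlinarith
      · rw [max_eq_left h1]
        nlinarith
    · push Not at h4
      interval_cases N
      · exfalso
        push_cast at hN2
        linarith
      · -- N = 1, J = 3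
        push_cast at hN1 hN2
        refine ⟨3, by norm_num, by push_cast; linarith, Or.inr ⟨?_, ?_⟩⟩
        · rw [show 2 * 3 - 1 = 3 + 1 + 1 by norm_num, ex_succ, ex_succ, ex_zero _ hd.le (by push_cast; linarith)]
          push_cast
          rw [max_eq_left (b := 3 * d - r) (by linarith), max_eq_right (b := 4 * d - r) (by linarith),
            max_eq_right (by linarith)]
          linarith
        · rw [show 2 * 3 = 3 + 1 + 1 + 1 by norm_num, ex_succ, ex_succ, ex_succ, ex_zero _ hd.le (by push_cast; linarith)]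
          push_cast
          rw [max_eq_left (b := 3 * d - r) (by linarith), max_eq_right (b := 4 * d - r) (by linarith),
            max_eq_right (by linarith)]
          linarith
      · -- N = 2
        push_cast at hN1 hN2
        rcases le_total (r - 4 * d) (d - e) with h1 | h1
        · refine ⟨3, by norm_num, by push_cast; linarith, Or.inr ⟨?_, ?_⟩⟩
          · rw [show 2 * 3 - 1 = 4 + 1 by norm_num, ex_succ, ex_zero _ hd.le (by push_cast; linarith)]
            push_cast
            rw [max_eq_left (b := 4 * d - r) (by linarith)]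
            rcases le_total 0 ((2 * 3 - 1) * d - r - c) with h2 | h2
            · rw [max_eq_right h2]
              linarith
            · rw [max_eq_left h2]
              linarith
          · rw [show 2 * 3 = 4 + 1 + 1 by norm_num, ex_succ, ex_succ, ex_zero _ hd.le (by push_cast; linarith)]
            push_cast
            rw [max_eq_left (b := 4 * d - r) (by linarith), max_eq_right (by linarith)]
            linarith
        · refine ⟨4, by norm_num, by push_cast; linarith, Or.inr ⟨?_, ?_⟩⟩
          · rw [show 2 * 4 - 1 = 5 + 1 + 1 by norm_num, ex_succ, ex_succ, ex_zero _ hd.le (by push_cast; linarith)]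
            push_cast
            rw [max_eq_right (b := 6 * d - r) (by linarith), max_eq_right (b := (2 * 4 - 1) * d - r - c) (by linarith)]
            rcases le_total 0 (5 * d - r) with h2 | h2
            · rw [max_eq_right h2]
              linarith
            · rw [max_eq_left h2]
              linarith
          · rw [show 2 * 4 = 5 + 1 + 1 + 1 by norm_num, ex_succ, ex_succ, ex_succ, ex_zero _ hd.le (by push_cast; linarith)]
            push_cast
            rw [max_eq_right (b := 6 * d - r) (by linarith), max_eq_right (b := 7 * d - r) (by linarith)]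
            rcases le_total 0 (5 * d - r) with h2 | h2
            · rw [max_eq_right h2]
              linarith
            · rw [max_eq_left h2]
              linarith
      · -- N = 3
        push_cast at hN1 hN2
        rcases le_total (r - 6 * d) d with h1 | h1
        · refine ⟨4, by norm_num, by push_cast; linarith, Or.inl ?_⟩
          rw [show 2 * 4 = 6 + 1 + 1 by norm_num, ex_succ, ex_succ, ex_zero _ hd.le (by push_cast; linarith)]
          push_cast
          rw [max_eq_left (b := 6 * d - r) (by linarith), max_eq_right (by linarith)]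
          linarith
        · refine ⟨5, by norm_num, by push_cast; linarith, Or.inl ?_⟩
          rw [show 2 * 5 = 7 + 1 + 1 + 1 by norm_num, ex_succ, ex_succ, ex_succ, ex_zero _ hd.le (by push_cast; linarith)]
          push_cast
          rw [max_eq_left (b := 7 * d - r) (by linarith), max_eq_right (b := 8 * d - r) (by linarith),
            max_eq_right (by linarith)]
          linarith

end Pool.Agent.Helper68.AO
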